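import Pool.Agent.H18.Dir.Weyl

set_option autoImplicit false

namespace Pool.Agent.H18.Dir

open Finset

variable {p : ℕ}

/-- the linear form attached to a direction -/
def lf (d : Option (ZMod p)) (q : ZMod p × ZMod p) : ZMod p :=
  d.elim q.1 (fun m => q.2 - m * q.1)

lemma lf_add (d : Option (ZMod p)) (q u : ZMod p × ZMod p) : lf d (q + u) = lf d q + lf d u := by
  cases d <;> simp [lf]
  ring

lemma lf_sub (d : Option (ZMod p)) (q u : ZMod p × ZMod p) : lf d (q - u) = lf d q - lf d u := by
  cases d <;> simp [lf]
  ring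

lemma lf_surj (d : Option (ZMod p)) (x : ZMod p) : ∃ q, lf d q = x := by
  cases d with
  | none => exact ⟨(x, 0), by simp [lf]⟩
  | some m => exact ⟨(0, x), by simp [lf]⟩

lemma exists_u [Fact p.Prime] {d e : Option (ZMod p)} (h : d ≠ e) (t : ZMod p) :
    ∃ u, lf e u = 0 ∧ lf d u = t := by
  cases d with
  | none =>
    cases e with
    | none => exact absurd rfl h
    | some m => exact ⟨(t, m * t), by simp [lf], by simp [lf]⟩
  | some a =>
    cases e with
    | none => exact ⟨(0, t), by simp [lf], by simp [lf]⟩
    | some m =>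
      have : m - a ≠ 0 := fun e => h (by rw [sub_eq_zero.1 e])
      refine ⟨(t / (m - a), m * (t / (m - a))), by simp [lf], ?_⟩
      simp only [lf, Option.elim]
      field_simp

lemma poly_of_sum [Fact p.Prime] (d : Option (ZMod p)) (D : Finset (Option (ZMod p))) :
    d ∉ D → ∀ (g : Option (ZMod p) → ZMod p → ZMod p) (c : ZMod p),
      (∀ q, g d (lf d q) + ∑ e ∈ D, g e (lf e q) = c) → Poly (D.card + 1) (g d) := by
  classical
  induction D using Finset.induction_on with
  | empty =>
    intro _ g c h t x
    obtain ⟨q, hq⟩ := lf_surj d (x + t)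
    obtain ⟨q', hq'⟩ := lf_surj d x
    have h1 := h q
    have h2 := h q'
    simp only [sum_empty, add_zero] at h1 h2
    rw [hq] at h1
    rw [hq'] at h2
    simp [h1, h2]
  | insert e0 D he ih =>
    intro hd g c h
    rw [card_insert_of_notMem he]
    intro t
    rw [mem_insert, not_or] at hd
    obtain ⟨u, hu1, hu2⟩ := exists_u hd.1 t
    have := ih hd.2 (fun e x => g e (x + lf e u) - g e x) 0 (fun q => by
      have h1 := h (q + u)
      have h2 := h q
      rw [sum_insert he] at h1 h2
      simp only [lf_add, hu1, add_zero] at h1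
      rw [Finset.sum_sub_distrib]
      linear_combination h1 - h2)
    simpa only [hu2] using this

lemma count_dir [Fact p.Prime] (v : ZMod p × ZMod p) :
    (univ.filter fun d : Option (ZMod p) => lf d v = 0).card = 1 + if v = 0 then p else 0 := by
  classical
  by_cases hv : v = 0
  · subst hv
    rw [if_pos rfl, filter_true_of_mem]
    · simp [add_comm]
    · intro d _
      cases d <;> simp [lf]
  · rw [if_neg hv, add_zero, card_eq_one]
    obtain ⟨x, y⟩ := v
    by_cases hx : x = 0
    · subst hx
      have hy : y ≠ 0 := fun e => hv (by simp [e])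
      refine ⟨none, ?_⟩
      ext d
      rw [mem_filter]
      cases d <;> simp [lf, hy]
    · refine ⟨some (y / x), ?_⟩
      ext d
      rw [mem_filter]
      cases d with
      | none => simp [lf, hx]
      | some m =>
        simp only [lf, mem_univ, true_and, Option.elim, mem_singleton,
          Option.some.injEq]
        rw [eq_div_iff hx, sub_eq_zero, eq_comm]

/-- number of points on a line -/
def pr (S : Finset (ZMod p × ZMod p)) (d : Option (ZMod p)) (b : ZMod p) : ℕ :=
  (S.filter (fun q => lf d q = b)).card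

lemma pr_le [Fact p.Prime] (S : Finset (ZMod p × ZMod p)) (d : Option (ZMod p)) (b : ZMod p) :
    pr S d b ≤ p := by
  have hc : (univ : Finset (ZMod p)).card = p := by simp
  refine le_of_le_of_eq ?_ hc
  cases d with
  | none =>
    apply card_le_card_of_injOn (fun q => q.2) (fun _ _ => by simp)
    intro q hq q' hq' e
    rw [mem_coe, mem_filter] at hq hq'
    exact Prod.ext (hq.2.trans hq'.2.symm) e
  | some m =>
    apply card_le_card_of_injOn (fun q => q.1) (fun _ _ => by simp)
    intro q hq q' hq' e
    rw [mem_coe, mem_filter] at hq hq'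
    simp only [lf, Option.elim] at hq hq' e
    refine Prod.ext e ?_
    have := hq.2.trans hq'.2.symm
    rw [e] at this
    exact sub_left_injective this

lemma sum_pr [Fact p.Prime] (S : Finset (ZMod p × ZMod p)) (d : Option (ZMod p)) :
    ∑ b, pr S d b = S.card :=
  (Finset.card_eq_sum_card_fiberwise (f := lf d) (fun _ _ => by simp)).symm

lemma identA [Fact p.Prime] (S : Finset (ZMod p × ZMod p)) (q : ZMod p × ZMod p) :
    ∑ d, pr S d (lf d q) = S.card + if q ∈ S then p else 0 := by
  classical
  simp only [pr, card_filter]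
  rw [Finset.sum_comm]
  have : ∀ q' ∈ S, (∑ d : Option (ZMod p), if lf d q' = lf d q then 1 else 0)
      = 1 + if q' = q then p else 0 := by
    intro q' _
    have := count_dir (q' - q)
    simp only [card_filter, lf_sub, sub_eq_zero] at this
    exact this
  rw [Finset.sum_congr rfl this, Finset.sum_add_distrib]
  simp

lemma identB [Fact p.Prime] (S : Finset (ZMod p × ZMod p)) :
    ∑ d, ∑ b, pr S d b ^ 2 = S.card * (S.card + p) := by
  classical
  have : ∀ d, ∑ b, pr S d b ^ 2 = ∑ q ∈ S, pr S d (lf d q) := by
    intro d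
    rw [← Finset.sum_fiberwise (s := S) (g := lf d)]
    refine Finset.sum_congr rfl fun b _ => ?_
    rw [Finset.sum_congr rfl (g := fun _ => pr S d b) (fun q hq => by rw [(mem_filter.1 hq).2])]
    simp [pr, sq]
  simp only [this]
  rw [Finset.sum_comm, Finset.sum_congr rfl (g := fun _ => S.card + p)
    (fun q hq => by rw [identA, if_pos hq])]
  simp

theorem main (k : ℕ) (hk : 4 ≤ k) : ∃ p₀ : ℕ, ∀ (p : ℕ) [Fact p.Prime], p₀ < p →
    ∀ S : Finset (ZMod p × ZMod p), p ∣ S.card →
      (univ.filter fun d : Option (ZMod p) => ∃ b, pr S d b * p ≠ S.card).card ≠ k := by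
  classical
  obtain ⟨p₀, hp₀⟩ := variance k
  refine ⟨p₀, fun p _ hp S hS hD => ?_⟩
  obtain ⟨n, hn⟩ := hS
  have hpp : 0 < p := (Fact.out : p.Prime).pos
  have hp0 : (0 : ℝ) < p := by exact_mod_cast hpp
  set D := univ.filter fun d : Option (ZMod p) => ∃ b, pr S d b * p ≠ S.card with hDdef
  have hnot : ∀ d, d ∉ D → ∀ b, pr S d b = n := by
    intro d hd b
    simp only [hDdef, mem_filter, mem_univ, true_and, not_exists, not_not] at hd
    have := hd b
    rw [hn, mul_comm p n] at this
    exact Nat.eq_of_mul_eq_mul_right hpp this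
  have hin : ∀ d ∈ D, ∃ b, pr S d b ≠ n := by
    intro d hd
    obtain ⟨b, hb⟩ := (mem_filter.1 hd).2
    exact ⟨b, fun e => hb (by rw [e, hn, mul_comm])⟩
  let f : Option (ZMod p) → ZMod p → ℤ := fun d b => (pr S d b : ℤ) - n
  let V : Option (ZMod p) → ℝ := fun d => ∑ b, (f d b : ℝ) ^ 2
  have hV : ∀ d, V d = ∑ b, (pr S d b : ℝ) ^ 2 - n ^ 2 * p := by
    intro d
    have h1 : ∑ b, (pr S d b : ℝ) = p * n := by
      have := sum_pr S d
      rw [hn] at this
      exact_mod_cast this
    have h2 : ∀ b, (f d b : ℝ) ^ 2 = (pr S d b : ℝ) ^ 2 - 2 * n * pr S d b + n ^ 2 := by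
      intro b; simp only [f]; push_cast; ring
    simp only [V, h2]
    rw [Finset.sum_add_distrib, Finset.sum_sub_distrib, ← Finset.mul_sum, h1]
    simp [ZMod.card]
    ring
  have hV0 : ∀ d, 0 ≤ V d := fun d => Finset.sum_nonneg fun _ _ => sq_nonneg _
  have hsum : ∑ d, V d = n * p ^ 2 - n ^ 2 * p := by
    simp only [hV]
    rw [Finset.sum_sub_distrib]
    have := identB S
    rw [hn] at this
    have h2 : ∑ d, ∑ b, (pr S d b : ℝ) ^ 2 = (p * n) * (p * n + p) := by exact_mod_cast this
    rw [h2]
    simp [ZMod.card]
    ring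
  have hpos : ∀ d ∈ D, 0 < V d := by
    intro d hd
    obtain ⟨b, hb⟩ := hin d hd
    refine Finset.sum_pos' (fun _ _ => sq_nonneg _) ⟨b, mem_univ _, ?_⟩
    have : (f d b : ℝ) ≠ 0 := by
      simp only [f]; push_cast
      exact sub_ne_zero.2 (by exact_mod_cast hb)
    positivity
  have hbig : ∀ d ∈ D, (p : ℝ) ^ 3 / 16 < V d := by
    intro d hd
    apply hp₀ p hp (f d)
    · have hc : (D.erase d).card + 1 = k := by rw [card_erase_add_one hd, hD]
      rw [← hc]
      refine poly_of_sum d (D.erase d) (notMem_erase d D) (fun e b => (f e b : ZMod p)) (-n) ?_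
      intro q
      rw [Finset.add_sum_erase D (fun e => (f e (lf e q) : ZMod p)) hd]
      rw [Finset.sum_subset (subset_univ D) (fun e _ he => by simp [f, hnot e he])]
      simp only [f]
      push_cast
      rw [Finset.sum_sub_distrib]
      have := congrArg (Nat.cast : ℕ → ZMod p) (identA S q)
      push_cast at this
      rw [this, hn]
      simp [ZMod.card]
    · intro hc
      have hc' : ∀ x, (pr S d x : ZMod p) = pr S d 0 := by
        intro x
        have := hc x
        simp only [f] at this
        push_cast at this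
        exact sub_left_injective this
      have hcase : (∀ x, pr S d x = pr S d 0) ∨ ∀ x, pr S d x = 0 ∨ pr S d x = p := by
        by_cases h0 : (pr S d 0 : ZMod p) = 0
        · right
          intro x
          have h1 := (ZMod.natCast_eq_zero_iff _ _).1 ((hc' x).trans h0)
          rcases Nat.eq_zero_or_pos (pr S d x) with h2 | h2
          · exact Or.inl h2
          · exact Or.inr (le_antisymm (pr_le S d x) (Nat.le_of_dvd h2 h1))
        · left
          have hlt : ∀ x, pr S d x < p := by
            intro x
            refine lt_of_le_of_ne (pr_le S d x) fun e => h0 ?_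
            rw [← hc' x, e]; simp
          intro x
          have := (ZMod.natCast_eq_natCast_iff' _ _ _).1 (hc' x)
          rwa [Nat.mod_eq_of_lt (hlt x), Nat.mod_eq_of_lt (hlt 0)] at this
      rcases hcase with h1 | h1
      · obtain ⟨b, hb⟩ := hin d hd
        have := sum_pr S d
        simp only [h1, sum_const, card_univ, ZMod.card, smul_eq_mul] at this
        rw [hn] at this
        exact hb ((h1 b).trans (Nat.eq_of_mul_eq_mul_left hpp this))
      · have h2 : ∑ b, (pr S d b : ℝ) ^ 2 = p * (p * n) := by
          have h3 : ∑ b, (pr S d b : ℝ) = p * n := by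
            have := sum_pr S d
            rw [hn] at this
            exact_mod_cast this
          rw [← h3, Finset.mul_sum]
          refine Finset.sum_congr rfl fun b _ => ?_
          rcases h1 b with e | e <;> rw [e] <;> simp [sq]
        have h3 : V d = n * p ^ 2 - n ^ 2 * p := by rw [hV, h2]; ring
        obtain ⟨e, he, hed⟩ : ∃ e ∈ D, e ≠ d := by
          apply exists_mem_ne
          omega
        have h4 := Finset.sum_le_sum_of_subset_of_nonneg (f := V) (subset_univ {e, d})
          (fun i _ _ => hV0 i)
        rw [Finset.sum_pair hed, hsum, h3] at h4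
        have := hpos e he
        linarith
  have h1 := Finset.sum_le_sum_of_subset_of_nonneg (f := V) (subset_univ D) (fun i _ _ => hV0 i)
  have hne : D.Nonempty := by rw [← card_pos]; omega
  have h2 := Finset.sum_lt_sum_of_nonempty hne hbig
  rw [sum_const, hD, nsmul_eq_mul] at h2
  rw [hsum] at h1
  have hk' : (4 : ℝ) ≤ k := by exact_mod_cast hk
  have h3 : 4 * ((p : ℝ) ^ 3 / 16) ≤ k * ((p : ℝ) ^ 3 / 16) :=
    mul_le_mul_of_nonneg_right hk' (by positivity)
  nlinarith [mul_nonneg hp0.le (sq_nonneg ((p : ℝ) - 2 * n))]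

end Pool.Agent.H18.Dir
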