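import Mathlib

set_option autoImplicit false

namespace Pool.Agent.H18.Dir

open Finset

/-- all `j`-fold differences vanish -/
def Poly {G : Type} [AddCommGroup G] : ℕ → (G → G) → Prop
  | 0, g => ∀ x, g x = 0
  | j + 1, g => ∀ h, Poly j (fun x => g (x + h) - g x)

lemma Poly.smul {G : Type} [CommRing G] (a : G) : ∀ (j : ℕ) (g : G → G), Poly j g →
    Poly j (fun x => a * g x)
  | 0, g, h => fun x => by simp [h x]
  | j + 1, g, h => fun t => by
      have := Poly.smul a j _ (h t)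
      simpa only [mul_sub] using this

lemma norm_psi {p : ℕ} [NeZero p] (x : ZMod p) : ‖(ZMod.stdAddChar x : ℂ)‖ = 1 := by
  rw [ZMod.stdAddChar_apply]; exact Circle.norm_coe _

lemma conj_psi {p : ℕ} [NeZero p] (x : ZMod p) :
    (starRingEnd ℂ) (ZMod.stdAddChar x : ℂ) = ZMod.stdAddChar (-x) := by
  rw [AddChar.map_neg_eq_conj]

lemma const_of_period {p : ℕ} [Fact p.Prime] (φ : ZMod p → ZMod p) (h : ZMod p) (hh : h ≠ 0)
    (H : ∀ x, φ (x + h) = φ x) (x : ZMod p) : φ x = φ 0 := by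
  have key : ∀ m : ℕ, φ ((m : ZMod p) * h) = φ 0 := by
    intro m
    induction m with
    | zero => simp
    | succ m ih => rw [Nat.cast_succ, add_mul, one_mul, H, ih]
  have := key (x * h⁻¹).val
  rwa [ZMod.natCast_zmod_val, inv_mul_cancel_right₀ hh] at this

theorem weyl (j : ℕ) : ∀ ε : ℝ, 0 < ε → ∃ p₀ : ℕ, ∀ (p : ℕ) [Fact p.Prime], p₀ < p →
    ∀ φ : ZMod p → ZMod p, Poly j φ → (¬ ∀ x, φ x = φ 0) →
      ‖∑ x, (ZMod.stdAddChar (φ x) : ℂ)‖ ≤ ε * p := by
  induction j with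
  | zero =>
    intro ε _
    refine ⟨0, fun p _ _ φ hφ hn => absurd (fun x => ?_) hn⟩
    rw [hφ x, hφ 0]
  | succ j ih =>
    intro ε hε
    obtain ⟨p₁, hp₁⟩ := ih (ε ^ 2 / 2) (by positivity)
    obtain ⟨p₂, hp₂⟩ := exists_nat_gt (2 / ε ^ 2)
    refine ⟨max p₁ p₂, fun p _ hp φ hφ hn => ?_⟩
    have hp0 : (0 : ℝ) < p := by exact_mod_cast (Fact.out : p.Prime).pos
    by_cases hc : ∃ h : ZMod p, h ≠ 0 ∧ ∀ x, φ (x + h) - φ x = φ (0 + h) - φ 0
    · obtain ⟨h, hh, hc⟩ := hc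
      set c := φ (0 + h) - φ 0 with hcdef
      have hc0 : c ≠ 0 := by
        intro e
        exact hn (const_of_period φ h hh fun x => sub_eq_zero.1 (by rw [hc x, e]))
      have e1 : ∑ x, (ZMod.stdAddChar (φ x) : ℂ)
          = ZMod.stdAddChar c * ∑ x, (ZMod.stdAddChar (φ x) : ℂ) := by
        rw [Finset.mul_sum, ← Equiv.sum_comp (Equiv.addRight h)]
        refine Finset.sum_congr rfl fun x _ => ?_
        rw [← AddChar.map_add_eq_mul, ← hc x]
        simp
      have e2 : (ZMod.stdAddChar c : ℂ) ≠ 1 := by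
        intro e
        rw [← (ZMod.stdAddChar (N := p)).map_zero_eq_one, ZMod.injective_stdAddChar.eq_iff] at e
        exact hc0 e
      have e3 : ∑ x, (ZMod.stdAddChar (φ x) : ℂ) = 0 := by
        have : (1 - ZMod.stdAddChar c) * ∑ x, (ZMod.stdAddChar (φ x) : ℂ) = 0 := by
          rw [sub_mul, one_mul, ← e1, sub_self]
        exact (mul_eq_zero.1 this).resolve_left (sub_ne_zero.2 e2.symm)
      rw [e3, norm_zero]; positivity
    · push Not at hc
      set T := ∑ x, (ZMod.stdAddChar (φ x) : ℂ) with hT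
      have e1 : T * (starRingEnd ℂ) T = ∑ h, ∑ x, (ZMod.stdAddChar (φ (x + h) - φ x) : ℂ) := by
        rw [hT, map_sum, Finset.sum_mul_sum, Finset.sum_comm, Finset.sum_comm (s := univ)
          (f := fun h x => (ZMod.stdAddChar (φ (x + h) - φ x) : ℂ))]
        refine Finset.sum_congr rfl fun x _ => ?_
        rw [← Equiv.sum_comp (Equiv.addLeft x)]
        refine Finset.sum_congr rfl fun h _ => ?_
        rw [conj_psi, ← AddChar.map_add_eq_mul, sub_eq_add_neg]
        simp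
      have e2 : ‖T‖ ^ 2 ≤ ∑ h, ‖∑ x, (ZMod.stdAddChar (φ (x + h) - φ x) : ℂ)‖ := by
        have : ‖T‖ ^ 2 = ‖T * (starRingEnd ℂ) T‖ := by simp [sq]
        rw [this, e1]
        exact norm_sum_le _ _
      have e3 : ∀ h : ZMod p, ‖∑ x, (ZMod.stdAddChar (φ (x + h) - φ x) : ℂ)‖
          ≤ (if h = 0 then (p : ℝ) else 0) + ε ^ 2 / 2 * p := by
        intro h
        by_cases hh : h = 0
        · rw [if_pos hh]
          refine (norm_sum_le _ _).trans ?_
          simp only [norm_psi, sum_const, card_univ, ZMod.card, nsmul_eq_mul, mul_one]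
          have : 0 ≤ ε ^ 2 / 2 * p := by positivity
          linarith
        · rw [if_neg hh, zero_add]
          refine hp₁ p (lt_of_le_of_lt (le_max_left _ _) hp) _ (hφ h) ?_
          intro hx
          obtain ⟨x, hx'⟩ := hc h hh
          exact hx' (hx x)
      have e4 : ‖T‖ ^ 2 ≤ p + ε ^ 2 / 2 * p * p := by
        refine e2.trans ((Finset.sum_le_sum fun h _ => e3 h).trans ?_)
        rw [Finset.sum_add_distrib]
        simp [ZMod.card]
        linarith
      have e5 : 2 / ε ^ 2 < p := hp₂.trans (by exact_mod_cast lt_of_le_of_lt (le_max_right _ _) hp)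
      have e6 : 2 < ε ^ 2 * p := by
        rw [div_lt_iff₀ (by positivity)] at e5; linarith
      have e7 : ‖T‖ ^ 2 ≤ (ε * p) ^ 2 := by nlinarith
      exact (pow_le_pow_iff_left₀ (norm_nonneg _) (by positivity) two_ne_zero).1 e7

lemma trig_nonneg (θ : ℝ) (h : 0 ≤ θ) :
    Real.pi ^ 2 / 4 - Real.pi * Real.cos θ + Real.cos θ ^ 2 / 6 ≤ θ ^ 2 := by
  have hpi := Real.pi_gt_three
  have hpi2 := Real.pi_lt_d2
  rcases le_total (Real.pi / 2) θ with h1 | h1
  · set u := θ - Real.pi / 2 with hu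
    have hu0 : 0 ≤ u := by linarith
    have e : θ = u + Real.pi / 2 := by linarith
    have c : Real.cos θ = - Real.sin u := by rw [e, Real.cos_add_pi_div_two]
    have s1 := Real.sin_le hu0
    have s2 := Real.sin_sq_le_sq (x := u)
    rw [c, e]
    nlinarith
  · set v := Real.pi / 2 - θ with hv
    have hv0 : 0 ≤ v := by linarith
    have e : θ = Real.pi / 2 - v := by linarith
    have c : Real.cos θ = Real.sin v := by rw [e, Real.cos_pi_div_two_sub]
    have s1 := Real.sin_ge_sub_cube hv0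
    have s2 := Real.sin_sq_le_sq (x := v)
    have hv1 : v ≤ 1.575 := by linarith
    have s3 : Real.pi * v ≤ 5 := by nlinarith
    have s4 : Real.pi * (v - Real.sin v) ≤ Real.pi * (v ^ 3 / 6) :=
      mul_le_mul_of_nonneg_left (by linarith) (by linarith)
    have s5 : Real.pi * v * v ^ 2 ≤ 5 * v ^ 2 := mul_le_mul_of_nonneg_right s3 (by positivity)
    rw [c, e]
    nlinarith

lemma trig (θ : ℝ) :
    Real.pi ^ 2 / 4 + 1 / 12 - Real.pi * Real.cos θ + Real.cos (2 * θ) / 12 ≤ θ ^ 2 := by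
  rw [Real.cos_two_mul]
  rcases le_total 0 θ with h | h
  · have := trig_nonneg θ h
    linarith
  · have := trig_nonneg (-θ) (by linarith)
    rw [Real.cos_neg, neg_sq] at this
    linarith

lemma re_psi {p : ℕ} [NeZero p] (t : ℤ) :
    (ZMod.stdAddChar (t : ZMod p) : ℂ).re = Real.cos (2 * Real.pi * t / p) := by
  rw [ZMod.stdAddChar_coe, ← Complex.exp_ofReal_mul_I_re]
  congr 2
  push_cast
  ring

theorem variance (j : ℕ) : ∃ p₀ : ℕ, ∀ (p : ℕ) [Fact p.Prime], p₀ < p →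
    ∀ f : ZMod p → ℤ, Poly j (fun x => (f x : ZMod p)) → (¬ ∀ x, (f x : ZMod p) = f 0) →
      (p : ℝ) ^ 3 / 16 < ∑ x, (f x : ℝ) ^ 2 := by
  obtain ⟨p₀, hp₀⟩ := weyl j (1 / 100) (by norm_num)
  refine ⟨max p₀ 2, fun p _ hp f hf hn => ?_⟩
  have hp0 : (0 : ℝ) < p := by exact_mod_cast (Fact.out : p.Prime).pos
  have hp1 : p₀ < p := lt_of_le_of_lt (le_max_left _ _) hp
  have hp2 : 2 < p := lt_of_le_of_lt (le_max_right _ _) hp
  have h2 : (2 : ZMod p) ≠ 0 := by
    intro e
    have : ((2 : ℕ) : ZMod p) = 0 := by exact_mod_cast e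
    rw [ZMod.natCast_eq_zero_iff] at this
    exact absurd (Nat.le_of_dvd two_pos this) (by omega)
  have w1 := hp₀ p hp1 _ hf hn
  have w2 := hp₀ p hp1 _ (Poly.smul 2 j _ hf) (fun h => hn fun x => mul_left_cancel₀ h2 (h x))
  have r1 := (Complex.abs_re_le_norm _).trans w1
  have r2 := (Complex.abs_re_le_norm _).trans w2
  rw [Complex.re_sum] at r1 r2
  simp only [re_psi] at r1
  have e2 : ∀ x, (ZMod.stdAddChar (2 * (f x : ZMod p)) : ℂ).re
      = Real.cos (2 * (2 * Real.pi * f x / p)) := by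
    intro x
    have := re_psi (p := p) (2 * f x)
    push_cast at this
    rw [this]; congr 1; ring
  simp only [e2] at r2
  have s := Finset.sum_le_sum (s := univ) fun (x : ZMod p) _ => trig (2 * Real.pi * f x / p)
  have e3 : ∑ x : ZMod p, (2 * Real.pi * f x / p) ^ 2
      = 4 * Real.pi ^ 2 / p ^ 2 * ∑ x, (f x : ℝ) ^ 2 := by
    rw [Finset.mul_sum]
    refine Finset.sum_congr rfl fun x _ => ?_
    field_simp
    ring
  rw [e3, Finset.sum_add_distrib, Finset.sum_sub_distrib, ← Finset.mul_sum, ← Finset.sum_div] at s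
  simp only [sum_const, card_univ, ZMod.card, nsmul_eq_mul] at s
  have hpi := Real.pi_gt_three
  have hpi2 := Real.pi_lt_d2
  have a1 := (abs_le.1 r1).2
  have a2 := (abs_le.1 r2).1
  have a3 : Real.pi * ∑ x : ZMod p, Real.cos (2 * Real.pi * f x / p) ≤ 3.15 * (1 / 100 * p) := by
    refine (mul_le_mul_of_nonneg_left a1 (by linarith)).trans ?_
    exact mul_le_mul_of_nonneg_right hpi2.le (by positivity)
  have a4 : p * (Real.pi ^ 2 / 4) < 4 * Real.pi ^ 2 / p ^ 2 * ∑ x, (f x : ℝ) ^ 2 := by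
    linarith
  by_contra hc
  have a5 : 4 * Real.pi ^ 2 / p ^ 2 * ∑ x, (f x : ℝ) ^ 2 ≤ 4 * Real.pi ^ 2 / p ^ 2 * (p ^ 3 / 16) :=
    mul_le_mul_of_nonneg_left (not_lt.1 hc) (by positivity)
  have a6 : 4 * Real.pi ^ 2 / p ^ 2 * ((p : ℝ) ^ 3 / 16) = p * (Real.pi ^ 2 / 4) := by
    field_simp
    ring
  linarith

end Pool.Agent.H18.Dir
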